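import Mathlib

set_option autoImplicit false

namespace Pool.Agent.Results.MP_28c1b3_co.DisjointPairs

open Finset

/-- number of unordered pairs of distinct disjoint members -/
def d (F : Finset (Finset ℕ)) : ℕ :=
  ((F ×ˢ F).filter (fun p => p.1 ≠ p.2 ∧ Disjoint p.1 p.2)).card / 2

/-- the family `F(n,t)` -/
def Fnt (n t : ℕ) : Finset (Finset ℕ) :=
  if (n + t) % 2 = 1 then (Icc 1 n).powerset.filter (fun A => n + t + 1 ≤ 2 * A.card)
  else (Icc 1 n).powerset.filter (fun A => n + t ≤ 2 * (A.erase 1).card)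

/-- the family `F*(n,t)` -/
def Fstar (n t : ℕ) : Finset (Finset ℕ) :=
  Fnt n t ∪ (Icc 1 n).powerset.filter (fun A => A.card + 1 ≤ t)

def G (m : ℕ) : Finset (Finset ℕ) := (Icc 2 (2 * m + 1)).powerset.filter (fun A => m + 1 ≤ A.card)

lemma inter2 (m : ℕ) {A B : Finset ℕ} (hA : A ∈ G m) (hB : B ∈ G m) : 2 ≤ (A ∩ B).card := by
  obtain ⟨a1, a2⟩ := mem_filter.mp hA
  obtain ⟨b1, b2⟩ := mem_filter.mp hB
  have h1 := card_le_card (union_subset (mem_powerset.mp a1) (mem_powerset.mp b1))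
  have h2 := card_union_add_card_inter A B
  rw [Nat.card_Icc] at h1
  omega

lemma erase_mem (m : ℕ) {A : Finset ℕ} (h : A ∈ Fnt (2 * m + 1) 1) : A.erase 1 ∈ G m := by
  unfold Fnt at h
  rw [if_neg (by omega)] at h
  obtain ⟨a1, a2⟩ := mem_filter.mp h
  refine mem_filter.mpr ⟨mem_powerset.mpr ?_, by omega⟩
  intro x hx
  have := mem_Icc.mp (mem_powerset.mp a1 (mem_of_mem_erase hx))
  have := ne_of_mem_erase hx
  exact mem_Icc.mpr (by omega)

lemma cardF (m : ℕ) : (Fnt (2 * m + 1) 1).card ≤ 2 * (G m).card := by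
  have : Fnt (2 * m + 1) 1 ⊆ G m ∪ (G m).image (insert 1) := by
    intro A hA
    have := erase_mem m hA
    by_cases h : 1 ∈ A
    · exact mem_union_right _ (mem_image.mpr ⟨_, this, insert_erase h⟩)
    · rw [erase_eq_of_notMem h] at this
      exact mem_union_left _ this
  have h1 := card_le_card this
  have h2 := card_union_le (G m) ((G m).image (insert 1))
  have h3 : ((G m).image (insert 1)).card ≤ (G m).card := card_image_le
  omega

lemma dstar (m : ℕ) : d (Fstar (2 * m + 1) 1) ≤ 2 * (G m).card := by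
  have key : ∀ A ∈ Fstar (2 * m + 1) 1, A ∈ Fnt (2 * m + 1) 1 ∨ A = ∅ := by
    intro A hA
    rcases mem_union.mp hA with h | h
    · exact Or.inl h
    · exact Or.inr (card_eq_zero.mp (by have := (mem_filter.mp h).2; omega))
  have : (Fstar (2 * m + 1) 1 ×ˢ Fstar (2 * m + 1) 1).filter (fun p => p.1 ≠ p.2 ∧ Disjoint p.1 p.2)
      ⊆ ({∅} ×ˢ Fnt (2 * m + 1) 1) ∪ (Fnt (2 * m + 1) 1 ×ˢ {∅}) := by
    rintro ⟨A, B⟩ h
    simp only [mem_filter, mem_product] at h
    obtain ⟨⟨a, b⟩, c, e⟩ := h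
    simp only [mem_union, mem_product, mem_singleton]
    rcases key A a with a | a <;> rcases key B b with b | b
    · have h1 := inter2 m (erase_mem m a) (erase_mem m b)
      rw [disjoint_iff_inter_eq_empty.mp
        (e.mono (erase_subset 1 A) (erase_subset 1 B))] at h1
      simp at h1
    · exact Or.inr ⟨a, b⟩
    · exact Or.inl ⟨a, b⟩
    · exact absurd (a.trans b.symm) c
  have h1 := (card_le_card this).trans (card_union_le _ _)
  simp only [card_product, card_singleton] at h1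
  have := cardF m
  unfold d
  omega

lemma notG (m : ℕ) {A : Finset ℕ} (h : A ∈ G m) : 1 ∉ A ∧ A ≠ ∅ ∧ A ≠ {1} := by
  obtain ⟨a1, a2⟩ := mem_filter.mp h
  have : 1 ∉ A := fun h => by have := mem_Icc.mp (mem_powerset.mp a1 h); omega
  refine ⟨this, ?_, ?_⟩
  · rintro rfl; simp at a2
  · rintro rfl; simp at this

lemma dnew (m : ℕ) : 2 * (G m).card + 1 ≤ d (G m ∪ {∅, {1}}) := by
  let S : Finset (Finset ℕ) := {∅, {1}}
  have hS : ∀ A ∈ G m, A ∉ S := fun A hA => by simp [S, (notG m hA).2]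
  have dS : ∀ A ∈ G m, ∀ B ∈ S, Disjoint A B := by
    intro A hA B hB
    simp only [S, mem_insert, mem_singleton] at hB
    rcases hB with rfl | rfl <;> simp [(notG m hA).1]
  have sub : (S ×ˢ G m ∪ G m ×ˢ S) ∪ {(∅, {1}), ({1}, ∅)} ⊆
      ((G m ∪ S) ×ˢ (G m ∪ S)).filter (fun p => p.1 ≠ p.2 ∧ Disjoint p.1 p.2) := by
    rintro ⟨A, B⟩ h
    simp only [mem_union, mem_product, mem_insert, mem_singleton, Prod.mk.injEq, mem_filter] at h ⊢
    rcases h with (⟨a, b⟩ | ⟨a, b⟩) | ⟨rfl, rfl⟩ | ⟨rfl, rfl⟩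
    · exact ⟨⟨Or.inr a, Or.inl b⟩, fun e => hS B b (e ▸ a), (dS B b A a).symm⟩
    · exact ⟨⟨Or.inl a, Or.inr b⟩, fun e => hS A a (e ▸ b), dS A a B b⟩
    · simp [S]
    · simp [S]
  have h1 := card_le_card sub
  have cS : S.card = 2 := by decide
  rw [card_union_of_disjoint, card_union_of_disjoint, card_product, card_product, cS,
    show ({(∅, {1}), ({1}, ∅)} : Finset (Finset ℕ × Finset ℕ)).card = 2 by decide] at h1
  · unfold d
    change _ ≤ (((G m ∪ S) ×ˢ (G m ∪ S)).filter (fun p => p.1 ≠ p.2 ∧ Disjoint p.1 p.2)).card / 2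
    omega
  · rw [disjoint_left]
    rintro ⟨A, B⟩ h1 h2
    exact hS A (mem_product.mp h2).1 (mem_product.mp h1).1
  · rw [disjoint_left]
    rintro ⟨A, B⟩ h1 h2
    simp only [mem_union, mem_product, mem_insert, mem_singleton, Prod.mk.injEq] at h1 h2
    rcases h2 with ⟨rfl, rfl⟩ | ⟨rfl, rfl⟩ <;> rcases h1 with h | h
    · exact (notG m h.2).2.2 rfl
    · exact (notG m h.1).2.1 rfl
    · exact (notG m h.2).2.1 rfl
    · exact (notG m h.1).2.2 rfl

theorem result : ¬ ∀ t : ℕ, 1 ≤ t → ∃ n₀ : ℕ, ∀ n ≥ n₀, ∀ F ⊆ (Icc 1 n).powerset,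
    (∀ A ∈ F, ∀ B ∈ F, A ≠ B → (A ∩ B).card ≠ t) → d F ≤ d (Fstar n t) := by
  intro h
  obtain ⟨m, hm⟩ := h 1 le_rfl
  have h1 := hm (2 * m + 1) (by omega) (G m ∪ {∅, {1}}) (by
    intro A hA
    simp only [mem_union, mem_insert, mem_singleton] at hA
    rcases hA with hA | rfl | rfl
    · exact mem_powerset.mpr ((mem_powerset.mp (mem_filter.mp hA).1).trans
        (Icc_subset_Icc (by omega) le_rfl))
    · simp
    · simp) (by
    intro A hA B hB hne
    simp only [mem_union, mem_insert, mem_singleton] at hA hB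
    rcases hA with hA | rfl | rfl <;> rcases hB with hB | rfl | rfl
    · have := inter2 m hA hB; omega
    · simp
    · simp [(notG m hA).1]
    · simp
    · simp
    · simp
    · simp [(notG m hB).1]
    · simp
    · exact absurd rfl hne)
  have := dstar m
  have := dnew m
  omega

end Pool.Agent.Results.MP_28c1b3_co.DisjointPairs
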